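import Pool.Agent.J6H9.EW.Main
import Pool.Agent.J6H44.EV.Ant
import Pool.Agent.J6H68.EW.Glu
import Pool.Agent.J6H44.EW.Sum
import Pool.Agent.J6H45.EW.St2
import Pool.Agent.J6H18.EW.St1
import Pool.Agent.J6H14.EW.Hlf

/-!
# Direct sums of Erdős–Ulam ideals: increasing-invariance of the copies is lost

Let `f > 0` be nonincreasing with partial sums `F (n + 1) = ∑_{i ≤ n} f i → ∞` and `n f n / F (n + 1) → 0`, e.g.
`f n = 1 / (n + 1)`.  The ideal `Z = EU 1` of the sets of density zero and `EU f` are increasing-invariant, and their direct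
sum `Z ⊕ EU f` is isomorphic to an Erdős–Ulam ideal, which has no increasing-invariant isomorphic copy.

Proof.  Let `Z ⊕ EU f` be increasing-invariant in an ordering of `ω ⊔ ω`.  Let `Q_c` and `P_c` be the blocks
`[2 ^ c, 2 ^ (c + 1))` of the two summands.  As `P_c` has relative weight tending to zero in `EU f`, while a set which
contains a positive proportion of infinitely many `Q_(c + r)` is not in `Z`, the median of `Q_(c + r)` is before the median of
`P_c`, for each `r` and all `c ≥ c(r)`.  Then sets of density `2 ^ (-r)` in the lower halves of the `Q_(c + r)` are before the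
upper halves of the `P_c` and have as many elements; but the union of the latter is not in `EU f`.
-/

set_option autoImplicit false

namespace Pool.Agent.Results.MP_f6e960_lc.DirectSums

open Filter Topology Pool.Agent.J6H9.EU Pool.Agent.J6H9.EV Pool.Agent.J6H9.EW

/-- **Let `f > 0` be nonincreasing, `∑ f = ∞`, `n f n / ∑_{i ≤ n} f i → 0`. Then `Z = EU 1` and `EU f` are
increasing-invariant; `Z ⊕ EU f` is isomorphic to an Erdős–Ulam ideal; and no ideal on `ω` isomorphic to `Z ⊕ EU f` is
increasing-invariant.** -/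
theorem result (f : ℕ → ℝ) (hf : ∀ n, 0 < f n) (ha : Antitone f)
    (hs : Tendsto (fun n => ∑ i ∈ Finset.range n, f i) atTop atTop)
    (hsl : Tendsto (fun n : ℕ => n * f n / ∑ i ∈ Finset.range (n + 1), f i) atTop (𝓝 0)) :
    IncInv (EU fun _ => 1) ∧ IncInv (EU f) ∧
      (∃ ψ : ℕ ⊕ ℕ ≃ ℕ, IsErdosUlam ((fun A : Set (ℕ ⊕ ℕ) => ψ '' A) '' DS (EU fun _ => 1) (EU f))) ∧
      ∀ ψ : ℕ ⊕ ℕ ≃ ℕ, ¬ IncInv ((fun A : Set (ℕ ⊕ ℕ) => ψ '' A) '' DS (EU fun _ => 1) (EU f)) :=
  ⟨Pool.Agent.J6H44.EV.Ant.main _ (fun _ => zero_le_one) antitone_const,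
    Pool.Agent.J6H44.EV.Ant.main f (fun n => (hf n).le) ha,
    Pool.Agent.J6H44.EW.Sum.main _ f isW_one (isW hf hs hsl),
    not_incInv Pool.Agent.J6H68.EW.main Pool.Agent.J6H14.EW.main Pool.Agent.J6H18.EW.main
      Pool.Agent.J6H45.EW.main hf ha hs hsl⟩

end Pool.Agent.Results.MP_f6e960_lc.DirectSums
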