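import Pool.Agent.J6H46.EX.Uni
import Pool.Agent.J6H11.EX.Med
import Pool.Agent.J6H61.EX.Grd
import Pool.Agent.J6H28.EX.Eu
import Pool.Agent.J6H68.EX.Suf
import Pool.Agent.J6H37.EX.Rep
import Pool.Agent.J6H66.EX.Pos

/-!
# All Erdős–Ulam ideals: a necessary and a sufficient condition for an increasing-invariant isomorphic copy

Every Erdős–Ulam ideal is `W w d = {A : ∑_{x ∈ A ∩ D_n} w x → 0}` for consecutive intervals `D_n` of lengths `d n` and
weights `w > 0` of total mass in `[c, 1]` on each `D_n`, with `max w` on `D_n` tending to zero; and these are Erdős–Ulam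
ideals.  For such `w`, `d`:

* (`Suf`) if for each `δ > 0` there is a `K` such that for all `m`, apart from `K` of the `n`, the subsets of `D_m` which inject
  with increasing weights into the union of the other `D_n` have mass at most `δ`, then there is an increasing-invariant
  copy (order the points by decreasing weight);
* (`Nec`) if there is an increasing-invariant copy then for each `δ > 0` there is a `K` such that for all `m` at most `K` of the
  `n` are such that a subset of `D_m` of mass at least `δ` injects with increasing weights into `D_n`.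

Proof of the second part (a pointwise form of the median trick).  Let many of the `n` have maps `j_n : C_n → D_n`,
`C_n ⊆ D_m` of mass `≥ δ`; one can assume that they change the weights at most by the factor `2 / δ`.  For each point `c` of
`D_m` which is in many of the `C_n` compare the points `j_n c` in the given order `φ`.  By averaging there is an `n₀` such
that the set `E` of the `c ∈ C_(n₀)` for which many of the `j_n c` are before `j_(n₀) c` has mass at least `δ / 4`.  A greedy
choice of one of these `n = a(c)` for each `c ∈ E` gives a set `B = {j_(a(c)) c}` which has small mass in each `D_n` and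
is before `C = j_(n₀)(E)`.  The unions of such `B`, `C` show that the image of the ideal is not increasing-invariant.
-/

set_option autoImplicit false

namespace Pool.Agent.Results.MP_f6e960_lc.GeneralWeights

open Filter Topology Pool.Agent.J6H9.EU Pool.Agent.J6H9.EX

/-- **(1) The Erdős–Ulam ideals are the ideals `W w d` for the `w`, `d` with `Meas w d`. (2) For these, `Suf w d` implies
that there is an increasing-invariant isomorphic copy, and this implies `Nec w d`.** -/
theorem result :
    (∀ I : Set (Set ℕ), IsErdosUlam I ↔ ∃ (w : ℕ → ℝ) (d : ℕ → ℕ), Meas w d ∧ I = W w d) ∧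
      ∀ (w : ℕ → ℝ) (d : ℕ → ℕ), Meas w d →
        (Suf w d → ∃ φ : Equiv.Perm ℕ, IncInv ((fun A : Set ℕ => φ '' A) '' W w d)) ∧
        ((∃ φ : Equiv.Perm ℕ, IncInv ((fun A : Set ℕ => φ '' A) '' W w d)) → Nec w d) := by
  refine ⟨fun I => ⟨?_, ?_⟩, fun w d h => ⟨Pool.Agent.J6H68.EX.main w d h, ?_⟩⟩
  · rintro ⟨f, h0, h1, h2, rfl⟩
    obtain ⟨g, g0, g1, g2, hg⟩ := Pool.Agent.J6H66.EX.main f h0 h1 h2
    obtain ⟨w, d, hm, hw⟩ := Pool.Agent.J6H37.EX.main g g0 g1 g2
    exact ⟨w, d, hm, hg.trans hw⟩
  · rintro ⟨w, d, hm, rfl⟩
    exact Pool.Agent.J6H28.EX.main w d hm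
  · rintro ⟨φ, hφ⟩ δ hδ
    by_contra hc
    push Not at hc
    refine Pool.Agent.J6H46.EX.main w d h (δ / 4) φ (by positivity) ?_ hφ
    refine fun ε hε M => Pool.Agent.J6H11.EX.main Pool.Agent.J6H61.EX.main w d h δ hδ (fun K => ?_) φ ε hε M
    obtain ⟨m, N, h1, h2⟩ := hc K
    exact ⟨m, N, h2, h1⟩

end Pool.Agent.Results.MP_f6e960_lc.GeneralWeights
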