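import Pool.Agent.Results.MP_f6e960_lc.UniformMeasures
import Pool.Agent.J6H9.EV.Main
import Pool.Agent.J6H47.EV.Rec
import Pool.Agent.J6H61.EV.Sub1
import Pool.Agent.J6H92.EV.Sub2
import Pool.Agent.J6H63.EV.Cnt
import Pool.Agent.J6H44.EV.Ant

/-!
# Erdős–Ulam ideals of regular weights: which of them have an increasing-invariant isomorphic copy

Let `f > 0` with partial sums `F (n + 1) = ∑_{i ≤ n} f i → ∞` and `f n / F (n + 1) → 0`.

(1) If `f` is nonincreasing then `EU f` is increasing-invariant (Abel summation).
(2) If `f` is nondecreasing and `f n / F (n + 1)` is nonincreasing, then the following are equivalent: `EU f` has an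
increasing-invariant isomorphic copy; `n f n = O(F (n + 1))`; `EU f` is the ideal of the sets of asymptotic density zero.

So for `f n = n ^ a` there is a copy, and for `f n = exp (n ^ a)`, `0 < a < 1`, or `f n = exp ((log n) ^ b)`, `b > 1`
(suitably modified for small `n`), there is none.

Proof of (2). Cut `ω` in consecutive intervals `D_k = [a_k, a_k + d_k)` with `d_k` of order `F (a_k + 1) / f (a_k)`.  On
`D_k` the weights are the same up to a factor 2, and `F (a_k)` grows geometrically, so that `EU f` is the ideal of the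
uniform measures on the `D_k`.  By the theorem of the file `UniformMeasures` it has a copy iff boundedly many of the `d_k`
are in each `[s, 2 s)`; then `a_(k+1) = d_0 + ... + d_k = O(d_k)`, that is `n f n = O(F (n + 1))`.
-/

set_option autoImplicit false

namespace Pool.Agent.Results.MP_f6e960_lc.RegularWeights

open Filter Topology Pool.Agent.J6H9.EU Pool.Agent.J6H9.EV

/-- **Let `f > 0`, `∑ f = ∞`, `f n / ∑_{i ≤ n} f i → 0`. (1) If `f` is nonincreasing then `EU f` is increasing-invariant.
(2) If `f` is nondecreasing and `f n / ∑_{i ≤ n} f i` is nonincreasing, the following are equivalent: `EU f` has an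
increasing-invariant isomorphic copy; there is a `C` with `n f n ≤ C ∑_{i ≤ n} f i` for all `n`; `EU f` is the ideal `EU 1`
of the sets of density zero.** -/
theorem result (f : ℕ → ℝ) (hf : ∀ n, 0 < f n) (hs : Tendsto (fun n => ∑ i ∈ Finset.range n, f i) atTop atTop)
    (hE : Tendsto (fun n => f n / ∑ i ∈ Finset.range (n + 1), f i) atTop (𝓝 0)) :
    (Antitone f → IncInv (EU f)) ∧
      (Monotone f → Antitone (fun n => f n / ∑ i ∈ Finset.range (n + 1), f i) →
        List.TFAE [∃ φ : Equiv.Perm ℕ, IncInv ((fun A : Set ℕ => φ '' A) '' EU f),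
          ∃ C : ℝ, ∀ n : ℕ, n * f n ≤ C * ∑ i ∈ Finset.range (n + 1), f i,
          EU f = EU (fun _ => 1)]) := by
  refine ⟨fun ha => Pool.Agent.J6H44.EV.Ant.main f (fun n => (hf n).le) ha, fun hm hh => ?_⟩
  obtain ⟨d, had⟩ := Pool.Agent.J6H47.EV.main f hf hm hh hE
  have hUE : U d = EU f := Set.Subset.antisymm
    (Pool.Agent.J6H92.EV.main f d hf had.pos hs had.lower had.upper had.small)
    (Pool.Agent.J6H61.EV.main f d hf had.pos had.lower had.upper had.big)
  tfae_have 1 → 2 := by
    rintro ⟨φ, hφ⟩
    rw [← hUE] at hφ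
    obtain ⟨K, hK⟩ := ((UniformMeasures.result d had.pos had.lim).2.1 ⟨φ, hφ⟩)
    exact ⟨4 * K, mainA hf hh had (Pool.Agent.J6H63.EV.main d K had.pos had.mono had.lim hK)⟩
  tfae_have 2 → 3 := by
    rintro ⟨C, hC⟩
    refine Set.Subset.antisymm ?_ (sub_one hf hm hC)
    rw [← hUE]
    exact u_sub_one Pool.Agent.J6H92.EV.main hf hm had
  tfae_have 3 → 1 := by
    intro h3
    refine ⟨Equiv.refl ℕ, ?_⟩
    rw [h3]
    have h4 : (fun A : Set ℕ => (Equiv.refl ℕ) '' A) = id := by
      funext A
      simp
    rw [h4, Set.image_id]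
    exact Pool.Agent.J6H44.EV.Ant.main _ (fun _ => zero_le_one) antitone_const
  tfae_finish

end Pool.Agent.Results.MP_f6e960_lc.RegularWeights
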