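import Pool.Agent.J6H9.EU.Inv
import Pool.Agent.J6H24.EU.Srt
import Pool.Agent.J6H3.EU.Med
import Pool.Agent.J6H45.EU.Uni
import Pool.Agent.J6H46.EU.Den

/-!
# Erdős–Ulam ideals of uniform measures: which of them have an increasing-invariant isomorphic copy

Question Q1 asks which Erdős–Ulam ideals are isomorphic to an increasing-invariant ideal.  We answer it for the
ideals given by uniform measures on finite sets.  Let `d : ℕ → ℕ` be positive with `d n → ∞`, let `D_n` be consecutive
intervals of length `d n`, and let `U d` be the ideal of the sets `A` with `|A ∩ D_n| / d n → 0` (up to isomorphism the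
order of the intervals does not matter, and every `Exh(sup μ_n)` with `μ_n` uniform on disjoint finite sets covering
`ω`, of sizes `d n → ∞`, is isomorphic to it).  Then `U d` is an Erdős–Ulam ideal, and it has an increasing-invariant
isomorphic copy if and only if there is a `K` such that for every `s` at most `K` of the `n` have `s ≤ d n < 2 s`.

Proof. (⇐) Sort the intervals so that the sizes are nondecreasing.  If `|C ∩ n| ≤ |B ∩ n|` for all `n` then
`|C ∩ D_m| ≤ |B ∩ [0, max D_m]|`, which is at most the sum of the `|B ∩ D_k|`, `k ≤ m`, and as at most `K` of the sizes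
are in `(d m / 2 ^ (j + 1), d m / 2 ^ j]`, this sum is `o (d m)`.
(⇒, the median trick) Let `φ` be a bijection and let `k + 1` of the sizes be in `[s, 2 s)`.  Split each `φ(D_n)` in its
lower and its upper half; let `C` be the upper half for the `m` for which the median is largest, and let `B` consist of
about `s / (k + 1)` points of each of the lower halves.  Then `B` is below `C`, `|C| ≤ |B|`, the density of `B` is at most
`2 / (k + 1)` in each `D_n`, and that of `C` is at least `1 / 2` in `D_m`.  The union of such `B`, for `k → ∞`, is in the
ideal, and that of the `C` is not.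
-/

set_option autoImplicit false

namespace Pool.Agent.Results.MP_f6e960_lc.UniformMeasures

open Filter Pool.Agent.J6H9.EU

/-- **The ideal `U d` of the uniform measures on consecutive intervals of lengths `d n → ∞` is an Erdős–Ulam ideal, and
it has an increasing-invariant isomorphic copy if and only if there is a `K` such that for each `s` at most `K` of the
`n` have `s ≤ d n < 2 s`.** -/
theorem result (d : ℕ → ℕ) (hd : ∀ n, 0 < d n) (ht : Tendsto d atTop atTop) :
    IsErdosUlam (U d) ∧
      ((∃ φ : Equiv.Perm ℕ, IncInv ((fun A : Set ℕ => φ '' A) '' U d)) ↔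
        ∃ K : ℕ, ∀ s : ℕ, {n | s ≤ d n ∧ d n < 2 * s}.ncard ≤ K) := by
  refine ⟨Pool.Agent.J6H46.EU.main d hd ht, ?_, ?_⟩
  · rintro ⟨φ, hφ⟩
    by_contra hK
    push Not at hK
    exact Pool.Agent.J6H45.EU.main Pool.Agent.J6H3.EUMed.main d hd ht hK φ hφ
  · rintro ⟨K, hK⟩
    exact inv Pool.Agent.J6H24.EU.Srt.main d hd ht K hK

end Pool.Agent.Results.MP_f6e960_lc.UniformMeasures
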